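import Mathlib

set_option autoImplicit false

namespace Pool.Agent.Results.MP_6bff71_co.BeatsRandom

open Finset

/-- The `k`-term arithmetic progressions contained in `{1, …, n}`, as sets of integers: the sets
`{a, a + d, …, a + (k - 1) d} ⊆ {1, …, n}` with `a ≥ 1` and `d ≥ 1`. -/
noncomputable def APs (k n : ℕ) : Finset (Finset ℕ) := by
  classical
  exact (Icc 1 n).powerset.filter fun s =>
    ∃ a d : ℕ, 1 ≤ a ∧ 1 ≤ d ∧ s = (range k).image fun i => a + i * d

/-- The number of `k`-term arithmetic progressions in `{1, …, n}` on which the colouring `χ` is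
constant. -/
noncomputable def monoCount {r : ℕ} (k n : ℕ) (χ : ℕ → Fin r) : ℕ := by
  classical
  exact ((APs k n).filter fun s => ∃ c : Fin r, ∀ x ∈ s, χ x = c).card

/-! ### Pairs (first term, difference) -/

/-- pairs (first term, difference) of the progressions in `{1, …, n}` -/
def P (k n : ℕ) : Finset (ℕ × ℕ) :=
  ((Icc 1 n) ×ˢ (Icc 1 n)).filter fun p => p.1 + (k - 1) * p.2 ≤ n

theorem mem_P {k n : ℕ} (hk : 2 ≤ k) {p : ℕ × ℕ} :
    p ∈ P k n ↔ 1 ≤ p.1 ∧ 1 ≤ p.2 ∧ p.1 + (k - 1) * p.2 ≤ n := by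
  unfold P
  simp only [mem_filter, mem_product, mem_Icc]
  constructor
  · rintro ⟨⟨⟨h1, h2⟩, h3, h4⟩, h5⟩
    exact ⟨h1, h3, h5⟩
  · rintro ⟨h1, h3, h5⟩
    have h6 : p.2 ≤ (k - 1) * p.2 := Nat.le_mul_of_pos_left _ (by omega)
    exact ⟨⟨⟨h1, by omega⟩, h3, by omega⟩, h5⟩

/-- the progression of a pair -/
def ap (k : ℕ) (p : ℕ × ℕ) : Finset ℕ := (range k).image fun i => p.1 + i * p.2

theorem mem_ap {k : ℕ} {p : ℕ × ℕ} {x : ℕ} : x ∈ ap k p ↔ ∃ i < k, p.1 + i * p.2 = x := by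
  simp [ap]

theorem APs_eq {k n : ℕ} (hk : 2 ≤ k) : APs k n = (P k n).image (ap k) := by
  classical
  ext s
  simp only [APs, mem_filter, mem_powerset, mem_image]
  constructor
  · rintro ⟨h1, a, d, ha, hd, rfl⟩
    refine ⟨(a, d), ?_, rfl⟩
    rw [mem_P hk]
    refine ⟨ha, hd, ?_⟩
    have : a + (k - 1) * d ∈ (range k).image fun i => a + i * d := by
      simp only [mem_image, mem_range]
      exact ⟨k - 1, by omega, rfl⟩
    have := h1 this
    rw [mem_Icc] at this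
    exact this.2
  · rintro ⟨p, hp, rfl⟩
    rw [mem_P hk] at hp
    refine ⟨?_, p.1, p.2, hp.1, hp.2.1, rfl⟩
    intro x hx
    rw [mem_ap] at hx
    obtain ⟨i, hi, rfl⟩ := hx
    rw [mem_Icc]
    have : i * p.2 ≤ (k - 1) * p.2 := Nat.mul_le_mul_right _ (by omega)
    omega

theorem ap_inj {k n : ℕ} (hk : 2 ≤ k) : Set.InjOn (ap k) (P k n : Set (ℕ × ℕ)) := by
  have key : ∀ p q : ℕ × ℕ, p ∈ P k n → q ∈ P k n → ap k p = ap k q → q.1 ≤ p.1 := by
    intro p q hp hq h
    have : p.1 ∈ ap k p := by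
      rw [mem_ap]; exact ⟨0, by omega, by simp⟩
    rw [h, mem_ap] at this
    obtain ⟨i, -, hi⟩ := this
    omega
  have key2 : ∀ p q : ℕ × ℕ, p ∈ P k n → q ∈ P k n → ap k p = ap k q → p.1 = q.1 → q.2 ≤ p.2 := by
    intro p q hp hq h h1
    rw [mem_P hk] at hp hq
    have : p.1 + 1 * p.2 ∈ ap k p := by
      rw [mem_ap]; exact ⟨1, by omega, by simp⟩
    rw [h, mem_ap] at this
    obtain ⟨i, -, hi⟩ := this
    have h2 : i * q.2 = p.2 := by omega
    have h3 : i ≠ 0 := by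
      rintro rfl
      simp at h2
      omega
    rw [← h2]
    exact Nat.le_mul_of_pos_left _ (by omega)
  intro p hp q hq h
  have e1 : p.1 = q.1 := le_antisymm (key q p hq hp h.symm) (key p q hp hq h)
  have e2 : p.2 = q.2 := le_antisymm (key2 q p hq hp h.symm e1.symm) (key2 p q hp hq h e1)
  exact Prod.ext e1 e2

/-- monochromatic pairs -/
def mono {r : ℕ} (k : ℕ) (χ : ℕ → Fin r) (p : ℕ × ℕ) : Prop := ∀ i < k, χ (p.1 + i * p.2) = χ p.1

instance {r : ℕ} (k : ℕ) (χ : ℕ → Fin r) (p : ℕ × ℕ) : Decidable (mono k χ p) := by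
  unfold mono; infer_instance

theorem monoCount_eq {r k n : ℕ} (hk : 2 ≤ k) (χ : ℕ → Fin r) :
    monoCount k n χ = ((P k n).filter (mono k χ)).card := by
  classical
  unfold monoCount
  rw [APs_eq hk, filter_image, card_image_of_injOn]
  · congr 1
    apply filter_congr
    intro p hp
    constructor
    · rintro ⟨c, hc⟩ i hi
      have h1 := hc (p.1 + i * p.2) (mem_ap.mpr ⟨i, hi, rfl⟩)
      have h2 := hc p.1 (mem_ap.mpr ⟨0, by omega, by simp⟩)
      rw [h1, h2]
    · intro h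
      refine ⟨χ p.1, fun x hx => ?_⟩
      obtain ⟨i, hi, rfl⟩ := mem_ap.mp hx
      exact h i hi
  · intro p hp q hq h
    rw [mem_coe, mem_filter] at hp hq
    exact ap_inj hk hp.1 hq.1 h

/-! ### The averaging argument -/

theorem avg_step {r : ℕ} (S : Finset (Finset ℕ)) (p : ℕ → Fin r → ℝ) (y : ℕ)
    (hp1 : ∑ c, p y c = 1) :
    ∑ c', p y c' * (∑ s ∈ S, ∑ c, ∏ x ∈ s, (Function.update p y (Pi.single c' 1)) x c) =
      ∑ s ∈ S, ∑ c, ∏ x ∈ s, p x c := by
  classical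
  simp_rw [mul_sum]
  rw [sum_comm]
  refine sum_congr rfl fun s _ => ?_
  rw [sum_comm]
  refine sum_congr rfl fun c _ => ?_
  by_cases hy : y ∈ s
  · rw [← mul_prod_erase s _ hy]
    have h1 : ∀ c', ∏ x ∈ s, (Function.update p y (Pi.single c' (1 : ℝ))) x c =
        (Pi.single c' (1 : ℝ) : Fin r → ℝ) c * ∏ x ∈ s.erase y, p x c := by
      intro c'
      rw [← mul_prod_erase s _ hy, Function.update_self]
      congr 1
      refine prod_congr rfl fun x hx => ?_
      rw [Function.update_of_ne (ne_of_mem_erase hx)]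
    simp_rw [h1]
    rw [sum_eq_single c]
    · simp
    · intro b _ hb
      rw [Pi.single_eq_of_ne (Ne.symm hb)]
      simp
    · simp
  · have h1 : ∀ c', ∏ x ∈ s, (Function.update p y (Pi.single c' (1 : ℝ))) x c =
        ∏ x ∈ s, p x c := by
      intro c'
      refine prod_congr rfl fun x hx => ?_
      rw [Function.update_of_ne (fun h => hy (by rw [← h]; exact hx))]
    simp_rw [h1]
    rw [← sum_mul, hp1, one_mul]

theorem exists_le_avg {r : ℕ} (q F : Fin r → ℝ) (hq : ∀ c, 0 ≤ q c) (h1 : ∑ c, q c = 1) :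
    ∃ c, F c ≤ ∑ c', q c' * F c' := by
  by_contra hcon
  push Not at hcon
  set E := ∑ c', q c' * F c' with hE
  have h2 : ∑ c', q c' * (F c' - E) = 0 := by
    simp_rw [mul_sub]
    rw [sum_sub_distrib, ← sum_mul, h1, one_mul, ← hE, sub_self]
  have h3 : ∀ c ∈ (univ : Finset (Fin r)), q c * (F c - E) = 0 := by
    rw [← sum_eq_zero_iff_of_nonneg]
    · exact h2
    · intro c _
      exact mul_nonneg (hq c) (by linarith [hcon c])
  have h4 : ∀ c, q c = 0 := by
    intro c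
    rcases mul_eq_zero.mp (h3 c (mem_univ c)) with h | h
    · exact h
    · linarith [hcon c]
  simp [h4] at h1

theorem single_nonneg' {r : ℕ} (a c : Fin r) : 0 ≤ (Pi.single a (1 : ℝ) : Fin r → ℝ) c := by
  by_cases hc : c = a
  · subst hc; simp
  · rw [Pi.single_eq_of_ne hc]

theorem exists_coloring_aux {r : ℕ} (S : Finset (Finset ℕ)) (Y : Finset ℕ) :
    ∀ p : ℕ → Fin r → ℝ, (∀ x c, 0 ≤ p x c) → (∀ x, ∑ c, p x c = 1) →
      (∀ x, x ∉ Y → ∃ c, p x = Pi.single c 1) →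
      ∃ χ : ℕ → Fin r, (∑ s ∈ S, ∑ c, ∏ x ∈ s, (Pi.single (χ x) (1 : ℝ) : Fin r → ℝ) c) ≤
        ∑ s ∈ S, ∑ c, ∏ x ∈ s, p x c := by
  classical
  induction Y using Finset.induction_on with
  | empty =>
    intro p _ _ h
    choose χ hχ using fun x => h x (by simp)
    refine ⟨χ, le_of_eq ?_⟩
    simp_rw [← hχ]
  | insert y Y hy ih =>
    intro p hp0 hp1 h
    obtain ⟨c0, hc0⟩ := exists_le_avg (p y)
      (fun c' => ∑ s ∈ S, ∑ c, ∏ x ∈ s, (Function.update p y (Pi.single c' 1)) x c)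
      (hp0 y) (hp1 y)
    rw [avg_step S p y (hp1 y)] at hc0
    have g1 : ∀ x c, 0 ≤ Function.update p y (Pi.single c0 1) x c := by
      intro x c
      by_cases hx : x = y
      · subst hx
        rw [Function.update_self]
        exact single_nonneg' c0 c
      · rw [Function.update_of_ne hx]; exact hp0 x c
    have g2 : ∀ x, ∑ c, Function.update p y (Pi.single c0 1) x c = 1 := by
      intro x
      by_cases hx : x = y
      · subst hx
        rw [Function.update_self]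
        simp
      · rw [Function.update_of_ne hx]; exact hp1 x
    have g3 : ∀ x, x ∉ Y → ∃ c, Function.update p y (Pi.single c0 1) x = Pi.single c 1 := by
      intro x hx
      by_cases hxy : x = y
      · subst hxy
        exact ⟨c0, by rw [Function.update_self]⟩
      · obtain ⟨c, hc⟩ := h x (by simp [hxy, hx])
        exact ⟨c, by rw [Function.update_of_ne hxy, hc]⟩
    obtain ⟨χ, hχ⟩ := ih (Function.update p y (Pi.single c0 1)) g1 g2 g3
    exact ⟨χ, hχ.trans hc0⟩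

/-- There is a colouring with at most the expected number of monochromatic members. -/
theorem exists_coloring {r : ℕ} (hr : 0 < r) (S : Finset (Finset ℕ)) (p : ℕ → Fin r → ℝ)
    (hp0 : ∀ x c, 0 ≤ p x c) (hp1 : ∀ x, ∑ c, p x c = 1) :
    ∃ χ : ℕ → Fin r, ∀ T : Finset (Finset ℕ), (∀ s ∈ T, s ∈ S ∧ ∃ c, ∀ x ∈ s, χ x = c) →
      (T.card : ℝ) ≤ ∑ s ∈ S, ∑ c, ∏ x ∈ s, p x c := by
  classical
  set Y : Finset ℕ := S.biUnion id with hY
  set p' : ℕ → Fin r → ℝ := fun x => if x ∈ Y then p x else Pi.single ⟨0, hr⟩ 1 with hp'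
  have g1 : ∀ x c, 0 ≤ p' x c := by
    intro x c
    by_cases hx : x ∈ Y
    · simp only [hp', hx, if_true]; exact hp0 x c
    · simp only [hp', hx, if_false]
      exact single_nonneg' _ _
  have g2 : ∀ x, ∑ c, p' x c = 1 := by
    intro x
    by_cases hx : x ∈ Y
    · simp only [hp', hx, if_true]; exact hp1 x
    · simp only [hp', hx, if_false]; simp
  have g3 : ∀ x, x ∉ Y → ∃ c, p' x = Pi.single c 1 := by
    intro x hx
    exact ⟨⟨0, hr⟩, by simp only [hp', hx, if_false]⟩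
  obtain ⟨χ, hχ⟩ := exists_coloring_aux S Y p' g1 g2 g3
  · refine ⟨χ, fun T hT => ?_⟩
    have h1 : ∑ s ∈ S, ∑ c, ∏ x ∈ s, p' x c = ∑ s ∈ S, ∑ c, ∏ x ∈ s, p x c := by
      refine sum_congr rfl fun s hs => sum_congr rfl fun c _ => prod_congr rfl fun x hx => ?_
      have : x ∈ Y := by
        rw [hY, mem_biUnion]; exact ⟨s, hs, hx⟩
      simp only [hp', this, if_true]
    rw [h1] at hχ
    refine le_trans ?_ hχ
    have h2 : ∀ s, 0 ≤ ∑ c, ∏ x ∈ s, (Pi.single (χ x) (1 : ℝ) : Fin r → ℝ) c := by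
      intro s
      exact sum_nonneg fun c _ => prod_nonneg fun x _ => single_nonneg' _ _
    have h3 : ∀ s ∈ T, (1 : ℝ) ≤ ∑ c, ∏ x ∈ s, (Pi.single (χ x) (1 : ℝ) : Fin r → ℝ) c := by
      intro s hs
      obtain ⟨-, c, hc⟩ := hT s hs
      refine le_trans ?_ (single_le_sum (f := fun c => ∏ x ∈ s, (Pi.single (χ x) (1 : ℝ) : Fin r → ℝ) c)
        (fun c _ => prod_nonneg fun x _ => single_nonneg' _ _) (mem_univ c))
      rw [prod_eq_one]
      intro x hx
      rw [hc x hx]; simp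
    calc (T.card : ℝ) = ∑ s ∈ T, (1 : ℝ) := by simp
      _ ≤ ∑ s ∈ T, ∑ c, ∏ x ∈ s, (Pi.single (χ x) (1 : ℝ) : Fin r → ℝ) c := sum_le_sum h3
      _ ≤ _ := sum_le_sum_of_subset_of_nonneg (fun s hs => (hT s hs).1) (fun s _ _ => h2 s)

/-! ### Expansion of the product -/

theorem expand (b : ℝ) (hb : 0 ≤ b) (k : ℕ) : ∃ D : ℝ, 0 ≤ D ∧ ∀ g : ℕ → ℝ, (∀ i, |g i| ≤ b) →
    ∀ u : ℝ, 0 ≤ u → u ≤ 1 →
    |∏ i ∈ range k, (1 + u * g i) - (1 + u * ∑ i ∈ range k, g i +
      u ^ 2 * ∑ j ∈ range k, ∑ i ∈ range j, g i * g j)| ≤ D * u ^ 3 := by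
  induction k with
  | zero => exact ⟨0, le_refl _, fun g _ u _ _ => by simp⟩
  | succ k ih =>
    obtain ⟨D, hD0, hD⟩ := ih
    refine ⟨D * (1 + b) + (k * (k * (b * b))) * b, by positivity, fun g hg u hu0 hu1 => ?_⟩
    have h1 := hD g hg u hu0 hu1
    have he : |∑ j ∈ range k, ∑ i ∈ range j, g i * g j| ≤ k * (k * (b * b)) := by
      refine (abs_sum_le_sum_abs _ _).trans ?_
      have : ∀ j ∈ range k, |∑ i ∈ range j, g i * g j| ≤ k * (b * b) := by
        intro j hj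
        refine (abs_sum_le_sum_abs _ _).trans ?_
        calc ∑ i ∈ range j, |g i * g j| ≤ ∑ i ∈ range j, b * b := by
              refine sum_le_sum fun i _ => ?_
              rw [abs_mul]
              exact mul_le_mul (hg i) (hg j) (abs_nonneg _) hb
          _ = j * (b * b) := by simp
          _ ≤ k * (b * b) := by
              refine mul_le_mul_of_nonneg_right ?_ (by positivity)
              exact_mod_cast (mem_range.mp hj).le
      calc ∑ j ∈ range k, |∑ i ∈ range j, g i * g j| ≤ ∑ j ∈ range k, k * (b * b) :=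
            sum_le_sum this
        _ = k * (k * (b * b)) := by simp
    rw [prod_range_succ, sum_range_succ, sum_range_succ, ← sum_mul]
    set Pk := ∏ i ∈ range k, (1 + u * g i)
    set A := ∑ i ∈ range k, g i
    set e := ∑ j ∈ range k, ∑ i ∈ range j, g i * g j
    have h2 : Pk * (1 + u * g k) - (1 + u * (A + g k) + u ^ 2 * (e + A * g k)) =
        (Pk - (1 + u * A + u ^ 2 * e)) * (1 + u * g k) + u ^ 3 * (e * g k) := by ring
    rw [h2]
    refine (abs_add_le _ _).trans ?_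
    rw [abs_mul, abs_mul, abs_mul, abs_of_nonneg (pow_nonneg hu0 3)]
    have h3 : |1 + u * g k| ≤ 1 + b := by
      refine (abs_add_le _ _).trans ?_
      rw [abs_mul, abs_one, abs_of_nonneg hu0]
      have : u * |g k| ≤ 1 * b := mul_le_mul hu1 (hg k) (abs_nonneg _) (by norm_num)
      linarith
    have h4 : |Pk - (1 + u * A + u ^ 2 * e)| * |1 + u * g k| ≤ (D * u ^ 3) * (1 + b) :=
      mul_le_mul h1 h3 (abs_nonneg _) (by positivity)
    have h5 : |e| * |g k| ≤ (k * (k * (b * b))) * b :=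
      mul_le_mul he (hg k) (abs_nonneg _) (by positivity)
    have h6 : u ^ 3 * (|e| * |g k|) ≤ u ^ 3 * ((k * (k * (b * b))) * b) :=
      mul_le_mul_of_nonneg_left h5 (pow_nonneg hu0 3)
    linarith

/-! ### Counting -/

theorem card_P {k n : ℕ} (hk : 2 ≤ k) : (P k n).card = ∑ x ∈ range n, x / (k - 1) := by
  have h1 : (P k n).card = ((range n).sigma fun x => Icc 1 (x / (k - 1))).card := by
    refine card_nbij' (fun p => ⟨p.1 + (k - 1) * p.2 - 1, p.2⟩)
      (fun q => (q.1 + 1 - (k - 1) * q.2, q.2)) ?_ ?_ ?_ ?_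
    · intro p hp
      rw [mem_coe, mem_P hk] at hp
      rw [mem_coe, mem_sigma, mem_range, mem_Icc, Nat.le_div_iff_mul_le (by omega)]
      refine ⟨by simp only; omega, hp.2.1, ?_⟩
      simp only
      rw [mul_comm]
      omega
    · intro q hq
      rw [mem_coe, mem_sigma, mem_range, mem_Icc, Nat.le_div_iff_mul_le (by omega), mul_comm] at hq
      rw [mem_coe, mem_P hk]
      simp only
      omega
    · intro p hp
      rw [mem_coe, mem_P hk] at hp
      ext
      · simp only; omega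
      · rfl
    · intro q hq
      rw [mem_coe, mem_sigma, mem_range, mem_Icc, Nat.le_div_iff_mul_le (by omega), mul_comm] at hq
      ext
      · simp only; omega
      · rfl
  rw [h1, card_sigma]
  simp

theorem card_P_le {k n : ℕ} (hk : 2 ≤ k) : ((P k n).card : ℝ) ≤ n ^ 2 / (2 * (k - 1)) := by
  have hk1 : (0 : ℝ) < k - 1 := by
    have : (2 : ℝ) ≤ k := by exact_mod_cast hk
    linarith
  rw [le_div_iff₀ (by positivity), card_P hk]
  push_cast
  have h1 : ∀ x ∈ range n, ((x / (k - 1) : ℕ) : ℝ) * (k - 1) ≤ x := by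
    intro x _
    have : (x / (k - 1)) * (k - 1) ≤ x := Nat.div_mul_le_self _ _
    have h2 : (((x / (k - 1)) * (k - 1) : ℕ) : ℝ) ≤ x := by exact_mod_cast this
    rw [Nat.cast_mul, Nat.cast_sub (by omega)] at h2
    simpa using h2
  have h2 : (∑ x ∈ range n, ((x / (k - 1) : ℕ) : ℝ)) * (k - 1) ≤ ∑ x ∈ range n, (x : ℝ) := by
    rw [sum_mul]; exact sum_le_sum h1
  have h3 : (∑ x ∈ range n, (x : ℝ)) * 2 ≤ n ^ 2 := by
    have := Finset.sum_range_id_mul_two n
    have h4 : ((∑ x ∈ range n, x : ℕ) : ℝ) * 2 = ((n * (n - 1) : ℕ) : ℝ) := by exact_mod_cast this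
    rw [← Nat.cast_sum, h4, sq]
    exact_mod_cast Nat.mul_le_mul_left n (Nat.sub_le n 1)
  nlinarith

theorem le_card_P {k n : ℕ} (hk : 2 ≤ k) :
    (n : ℝ) ^ 2 / (2 * (k - 1)) - n ≤ ((P k n).card : ℝ) := by
  have hk1 : (1 : ℝ) ≤ k - 1 := by
    have : (2 : ℝ) ≤ k := by exact_mod_cast hk
    linarith
  rw [sub_le_iff_le_add, div_le_iff₀ (by positivity), card_P hk]
  push_cast
  have h1 : ∀ x ∈ range n, (x : ℝ) - (k - 2) ≤ ((x / (k - 1) : ℕ) : ℝ) * (k - 1) := by
    intro x _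
    have h0 : x % (k - 1) + (k - 1) * (x / (k - 1)) = x := Nat.mod_add_div _ _
    have h00 : x % (k - 1) < k - 1 := Nat.mod_lt _ (by omega)
    have : x ≤ (x / (k - 1)) * (k - 1) + (k - 2) := by
      rw [mul_comm]; omega
    have h2 : (x : ℝ) ≤ (((x / (k - 1)) * (k - 1) + (k - 2) : ℕ) : ℝ) := by exact_mod_cast this
    rw [Nat.cast_add, Nat.cast_mul, Nat.cast_sub (by omega), Nat.cast_sub (by omega)] at h2
    push_cast at h2
    linarith
  have h2 : (∑ x ∈ range n, ((x : ℝ) - (k - 2))) ≤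
      (∑ x ∈ range n, ((x / (k - 1) : ℕ) : ℝ)) * (k - 1) := by
    rw [sum_mul]; exact sum_le_sum h1
  have h3 : (∑ x ∈ range n, (x : ℝ)) * 2 = n ^ 2 - n := by
    have := Finset.sum_range_id_mul_two n
    have h4 : ((∑ x ∈ range n, x : ℕ) : ℝ) * 2 = ((n * (n - 1) : ℕ) : ℝ) := by exact_mod_cast this
    rw [← Nat.cast_sum, h4]
    rcases n.eq_zero_or_pos with rfl | hn
    · simp
    · rw [Nat.cast_mul, Nat.cast_sub (by omega)]
      push_cast; ring
  rw [sum_sub_distrib] at h2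
  simp only [sum_const, card_range, nsmul_eq_mul] at h2
  have hn0 : (0 : ℝ) ≤ n := Nat.cast_nonneg n
  nlinarith

/-- pairs whose `i`-th term lies in `α` and whose `j`-th term lies in `β` -/
def N (k n i j : ℕ) (α β : Finset ℕ) : ℕ :=
  ((P k n).filter fun p => p.1 + i * p.2 ∈ α ∧ p.1 + j * p.2 ∈ β).card

theorem N_II {k n i j w : ℕ} (hij : i < j) : N k n i j (Ioc 0 w) (Ioc 0 w) ≤ w * w := by
  have h : N k n i j (Ioc 0 w) (Ioc 0 w) ≤ ((Ioc 0 w) ×ˢ (Ioc 0 w)).card := by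
    refine card_le_card_of_injOn (fun p => (p.1 + i * p.2, p.1 + j * p.2)) ?_ ?_
    · intro p hp
      rw [mem_coe, mem_filter] at hp
      rw [mem_coe, mem_product]
      exact hp.2
    · intro p _ q _ h
      simp only [Prod.mk.injEq] at h
      obtain ⟨h1, h2⟩ := h
      obtain ⟨m, rfl⟩ : ∃ m, j = i + m := ⟨j - i, by omega⟩
      have h3 : m * p.2 = m * q.2 := by
        have e1 : (i + m) * p.2 = i * p.2 + m * p.2 := by ring
        have e2 : (i + m) * q.2 = i * q.2 + m * q.2 := by ring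
        omega
      have h4 : p.2 = q.2 := Nat.eq_of_mul_eq_mul_left (by omega) h3
      rw [h4] at h1
      exact Prod.ext (by omega) h4
  simpa using h

/-- pairs `(s, d)` with `A < s ≤ A + w` and `B < s + m d ≤ B + w` -/
def G (m A w B : ℕ) : Finset (Σ _ : ℕ, ℕ) :=
  (Ioc A (A + w)).sigma fun s => Ioc ((B - s) / m) ((B + w - s) / m)

theorem mem_G {m A w B : ℕ} (hm : 0 < m) (hAB : A + w ≤ B) {s d : ℕ} :
    (⟨s, d⟩ : Σ _ : ℕ, ℕ) ∈ G m A w B ↔
      A < s ∧ s ≤ A + w ∧ B < s + m * d ∧ s + m * d ≤ B + w := by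
  unfold G
  rw [mem_sigma, mem_Ioc, mem_Ioc, Nat.le_div_iff_mul_le hm, Nat.div_lt_iff_lt_mul hm]
  simp only
  rw [mul_comm d m]
  constructor
  · rintro ⟨⟨h1, h2⟩, h3, h4⟩
    omega
  · rintro ⟨h1, h2, h3, h4⟩
    omega

theorem card_G {m A w B : ℕ} (hm : 0 < m) (hAB : A + w ≤ B) (hmw : m ∣ w) :
    (G m A w B).card = w * (w / m) := by
  unfold G
  rw [card_sigma]
  have : ∀ s ∈ Ioc A (A + w), (Ioc ((B - s) / m) ((B + w - s) / m)).card = w / m := by
    intro s hs
    rw [mem_Ioc] at hs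
    obtain ⟨q, rfl⟩ := hmw
    have e : B + m * q - s = (B - s) + m * q := by omega
    rw [Nat.card_Ioc, e, Nat.add_mul_div_left _ _ hm, Nat.mul_div_cancel_left _ hm]
    omega
  rw [sum_congr rfl this, sum_const, Nat.card_Ioc, smul_eq_mul]
  congr 1
  omega

theorem sigma_inj {i : ℕ} {p q : ℕ × ℕ}
    (h : (⟨p.1 + i * p.2, p.2⟩ : Σ _ : ℕ, ℕ) = ⟨q.1 + i * q.2, q.2⟩) : p = q := by
  have h1 : p.1 + i * p.2 = q.1 + i * q.2 := congrArg Sigma.fst h
  have h2 : p.2 = q.2 := by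
    have := Sigma.mk.inj_iff.mp h
    exact eq_of_heq this.2
  rw [h2] at h1
  exact Prod.ext (by omega) h2

theorem N_le {k n i m A B w : ℕ} (hm : 0 < m) (hAB : A + w ≤ B) (hmw : m ∣ w) :
    N k n i (i + m) (Ioc A (A + w)) (Ioc B (B + w)) ≤ w * (w / m) := by
  rw [← card_G hm hAB hmw]
  refine card_le_card_of_injOn (fun p => (⟨p.1 + i * p.2, p.2⟩ : Σ _ : ℕ, ℕ)) ?_ ?_
  · intro p hp
    rw [mem_coe, mem_filter] at hp
    rw [mem_coe, mem_G hm hAB]
    have e : (i + m) * p.2 = i * p.2 + m * p.2 := by ring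
    simp only [mem_Ioc] at hp
    omega
  · intro p _ q _ h
    exact sigma_inj h

theorem le_N {k n i m A B w : ℕ} (hk : 2 ≤ k) (hm : 0 < m) (hAB : A + w ≤ B) (hmw : m ∣ w)
    (hin : ∀ s d, A < s → s ≤ A + w → B < s + m * d → s + m * d ≤ B + w →
      i * d < s ∧ s - i * d + (k - 1) * d ≤ n) :
    w * (w / m) ≤ N k n i (i + m) (Ioc A (A + w)) (Ioc B (B + w)) := by
  rw [← card_G hm hAB hmw]
  refine card_le_card_of_injOn (fun p => (p.1 - i * p.2, p.2)) ?_ ?_
  · rintro ⟨s, d⟩ hp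
    rw [mem_coe, mem_G hm hAB] at hp
    obtain ⟨h1, h2, h3, h4⟩ := hp
    obtain ⟨h5, h6⟩ := hin s d h1 h2 h3 h4
    rw [mem_coe, mem_filter, mem_P hk]
    have e : (i + m) * d = i * d + m * d := by ring
    have hd : 1 ≤ d := by
      rcases Nat.eq_zero_or_pos d with rfl | hd
      · simp at h3; omega
      · exact hd
    simp only [mem_Ioc]
    omega
  · rintro ⟨s, d⟩ hp ⟨s', d'⟩ hp' h
    rw [mem_coe, mem_G hm hAB] at hp hp'
    simp only [Prod.mk.injEq] at h
    obtain ⟨h1, rfl⟩ := h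
    have h5 := (hin s d hp.1 hp.2.1 hp.2.2.1 hp.2.2.2).1
    have h6 := (hin s' d hp'.1 hp'.2.1 hp'.2.2.1 hp'.2.2.2).1
    have : s = s' := by omega
    rw [this]

/-- pairs inside one block -/
theorem N_self_le {k n i m A w : ℕ} (hk : 2 ≤ k) (hm : 0 < m) :
    N k n i (i + m) (Ioc A (A + w)) (Ioc A (A + w)) ≤ ∑ x ∈ range w, x / m := by
  have h : N k n i (i + m) (Ioc A (A + w)) (Ioc A (A + w)) ≤
      ((range w).sigma fun x => Ioc 0 (x / m)).card := by
    refine card_le_card_of_injOn (fun p => (⟨A + w - (p.1 + i * p.2), p.2⟩ : Σ _ : ℕ, ℕ)) ?_ ?_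
    · intro p hp
      rw [mem_coe, mem_filter, mem_P hk] at hp
      rw [mem_coe, mem_sigma, mem_range, mem_Ioc, Nat.le_div_iff_mul_le hm]
      have e : (i + m) * p.2 = i * p.2 + m * p.2 := by ring
      simp only [mem_Ioc] at hp ⊢
      rw [mul_comm p.2 m]
      omega
    · intro p hp q hq h
      rw [mem_coe, mem_filter, mem_Ioc] at hp hq
      have h1 : A + w - (p.1 + i * p.2) = A + w - (q.1 + i * q.2) := congrArg Sigma.fst h
      have h2 : p.2 = q.2 := eq_of_heq (Sigma.mk.inj_iff.mp h).2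
      have h3 : p.1 + i * p.2 = q.1 + i * q.2 := by omega
      rw [h2] at h3
      exact Prod.ext (by omega) h2
  refine h.trans (le_of_eq ?_)
  rw [card_sigma]
  simp

theorem two_sum_le {m w : ℕ} : 2 * ∑ x ∈ range w, x / m ≤ w * (w / m) := by
  have h1 : ∑ x ∈ range w, x / m = ∑ x ∈ range w, (w - 1 - x) / m :=
    (sum_range_reflect (fun x => x / m) w).symm
  calc 2 * ∑ x ∈ range w, x / m = ∑ x ∈ range w, x / m + ∑ x ∈ range w, (w - 1 - x) / m := by
        rw [← h1]; ring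
    _ = ∑ x ∈ range w, (x / m + (w - 1 - x) / m) := by rw [sum_add_distrib]
    _ ≤ ∑ x ∈ range w, (w / m) := by
        refine sum_le_sum fun x hx => ?_
        rw [mem_range] at hx
        have h2 : x / m + (w - 1 - x) / m ≤ (x + (w - 1 - x)) / m := Nat.div_add_div_le_add_div
        refine h2.trans (Nat.div_le_div_right ?_)
        omega
    _ = w * (w / m) := by simp

/-- the first block -/
def I (w : ℕ) : Finset ℕ := Ioc 0 w
/-- the block to the left of `T = 4 k w` -/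
def J (k w : ℕ) : Finset ℕ := Ioc (4 * k * w - w) (4 * k * w - w + w)
/-- a block slightly to the right of `T` -/
def J' (k w : ℕ) : Finset ℕ := Ioc (4 * k * w + w) (4 * k * w + w + w)

variable {k w : ℕ}

theorem kw_facts (hk : 3 ≤ k) : w ≤ k * w ∧ 3 * w ≤ k * w := by
  constructor
  · exact Nat.le_mul_of_pos_left _ (by omega)
  · exact Nat.mul_le_mul_right _ hk

theorem key_JJ {i m : ℕ} (hk : 3 ≤ k) (hm : 0 < m) (him : i + m < k) (hmw : m ∣ w) :
    N k ((k - 1) * (4 * k * w)) i (i + m) (J k w) (J k w) +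
      N k ((k - 1) * (4 * k * w)) i (i + m) (J' k w) (J' k w) ≤
      N k ((k - 1) * (4 * k * w)) i (i + m) (J k w) (J' k w) := by
  have h1 := N_self_le (k := k) (n := (k - 1) * (4 * k * w)) (i := i) (A := 4 * k * w - w) (w := w)
    (by omega) hm
  have h2 := N_self_le (k := k) (n := (k - 1) * (4 * k * w)) (i := i) (A := 4 * k * w + w) (w := w)
    (by omega) hm
  have h3 := two_sum_le (m := m) (w := w)
  have e4 : 4 * k * w = 4 * (k * w) := by ring
  obtain ⟨f1, f2⟩ := kw_facts (w := w) hk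
  have h4 : w * (w / m) ≤ N k ((k - 1) * (4 * k * w)) i (i + m) (J k w) (J' k w) := by
    refine le_N (by omega) hm (by omega) hmw ?_
    intro s d g1 g2 g3 g4
    have hd1 : d ≤ m * d := Nat.le_mul_of_pos_left _ hm
    have hd2 : d ≤ 3 * w := by omega
    obtain ⟨k', rfl⟩ : ∃ k', k = k' + 3 := ⟨k - 3, by omega⟩
    have hi : i * d ≤ (k' + 2) * (3 * w) := Nat.mul_le_mul (by omega) hd2
    have hk2 : (k' + 3 - 1) * d ≤ (k' + 2) * (3 * w) := Nat.mul_le_mul (by omega) hd2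
    have e5 : (k' + 2) * (3 * w) = 3 * (k' * w) + 6 * w := by ring
    have e6 : (k' + 3) * w = k' * w + 3 * w := by ring
    have e7 : (k' + 3 - 1) * (4 * (k' + 3) * w) = (k' + 1) * (4 * (k' + 3) * w) + 4 * (k' + 3) * w := by
      have : k' + 3 - 1 = (k' + 1) + 1 := by omega
      rw [this]; ring
    have e8 : 4 * (k' + 3) * w ≤ (k' + 1) * (4 * (k' + 3) * w) := Nat.le_mul_of_pos_left _ (by omega)
    constructor
    · omega
    · omega
  unfold J J' at *
  omega

theorem key_IJ_zero {i m : ℕ} (hk : 3 ≤ k) (hm : 0 < m) (him : i + m < k)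
    (h : 1 ≤ i ∨ (i = 0 ∧ m = 1)) :
    N k ((k - 1) * (4 * k * w)) i (i + m) (I w) (J' k w) = 0 := by
  unfold N
  rw [card_eq_zero, filter_eq_empty_iff]
  rintro ⟨a, d⟩ hp ⟨h1, h2⟩
  rw [mem_P (by omega)] at hp
  simp only [I, J', mem_Ioc] at h1 h2 hp
  have e4 : 4 * k * w = 4 * (k * w) := by ring
  obtain ⟨f1, f2⟩ := kw_facts (w := w) hk
  have e : (i + m) * d = i * d + m * d := by ring
  rcases h with h | ⟨rfl, rfl⟩
  · have g1 : d ≤ i * d := Nat.le_mul_of_pos_left _ h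
    have g2 : d ≤ w := by omega
    have g3 : m * d ≤ k * w := Nat.mul_le_mul (by omega) g2
    omega
  · obtain ⟨k', rfl⟩ : ∃ k', k = k' + 3 := ⟨k - 3, by omega⟩
    simp only [zero_mul, add_zero, zero_add, one_mul] at *
    -- a ≤ w, a + d > T + w, a + (k-1) d ≤ (k-1) T
    have e5 : (k' + 3 - 1) * d = k' * d + 2 * d := by
      have : k' + 3 - 1 = k' + 2 := by omega
      rw [this]; ring
    have e6 : (k' + 3 - 1) * (4 * (k' + 3) * w) = k' * (4 * (k' + 3) * w) + 2 * (4 * (k' + 3) * w) := by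
      have : k' + 3 - 1 = k' + 2 := by omega
      rw [this]; ring
    have g4 : 4 * (k' + 3) * w < d := by omega
    have g5 : k' * (4 * (k' + 3) * w) ≤ k' * d := Nat.mul_le_mul_left _ g4.le
    omega

theorem key_IJ {i m : ℕ} (hk : 3 ≤ k) (hm : 0 < m) (him : i + m < k) (hmw : m ∣ w) :
    N k ((k - 1) * (4 * k * w)) i (i + m) (I w) (J' k w) + (if i = 0 ∧ m = 1 then w * w else 0) ≤
      N k ((k - 1) * (4 * k * w)) i (i + m) (I w) (J k w) := by
  have e4 : 4 * k * w = 4 * (k * w) := by ring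
  obtain ⟨f1, f2⟩ := kw_facts (w := w) hk
  rcases Nat.eq_zero_or_pos i with rfl | hi
  · -- lower bound for `J`
    have hlow : w * (w / m) ≤ N k ((k - 1) * (4 * k * w)) 0 (0 + m) (Ioc 0 (0 + w))
        (Ioc (4 * k * w - w) (4 * k * w - w + w)) := by
      refine le_N (by omega) hm (by omega) hmw ?_
      intro s d g1 g2 g3 g4
      refine ⟨by simpa using g1, ?_⟩
      have e5 : 4 * k * w - w + w = 4 * k * w := by omega
      rw [e5] at g4
      have hd1 : d ≤ m * d := Nat.le_mul_of_pos_left _ hm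
      have hd2 : s + d ≤ 4 * k * w := by omega
      obtain ⟨k', rfl⟩ : ∃ k', k = k' + 3 := ⟨k - 3, by omega⟩
      have e6 : k' + 3 - 1 = k' + 2 := by omega
      rw [e6]
      have e7 : (k' + 2) * (s + d) ≤ (k' + 2) * (4 * (k' + 3) * w) := Nat.mul_le_mul_left _ hd2
      have e8 : (k' + 2) * (s + d) = k' * s + 2 * s + (k' + 2) * d := by ring
      simp only [zero_mul]
      omega
    have e9 : Ioc 0 (0 + w) = I w := by simp [I]
    rw [e9] at hlow
    change w * (w / m) ≤ N k ((k - 1) * (4 * k * w)) 0 (0 + m) (I w) (J k w) at hlow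
    by_cases hm1 : m = 1
    · subst hm1
      rw [key_IJ_zero hk hm him (Or.inr ⟨rfl, rfl⟩)]
      simpa using hlow
    · rw [if_neg (by tauto)]
      have hup : N k ((k - 1) * (4 * k * w)) 0 (0 + m) (Ioc 0 (0 + w))
        (Ioc (4 * k * w + w) (4 * k * w + w + w)) ≤ w * (w / m) := N_le hm (by omega) hmw
      rw [e9] at hup
      change N k ((k - 1) * (4 * k * w)) 0 (0 + m) (I w) (J' k w) ≤ _ at hup
      omega
  · rw [key_IJ_zero hk hm him (Or.inl hi), if_neg (by omega)]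
    omega

theorem key_J'I {i m : ℕ} (hk : 3 ≤ k) :
    N k ((k - 1) * (4 * k * w)) i (i + m) (J' k w) (I w) = 0 := by
  unfold N
  rw [card_eq_zero, filter_eq_empty_iff]
  rintro ⟨a, d⟩ hp ⟨h1, h2⟩
  simp only [I, J', mem_Ioc] at h1 h2
  have e : (i + m) * d = i * d + m * d := by ring
  have e4 : 4 * k * w = 4 * (k * w) := by ring
  obtain ⟨f1, f2⟩ := kw_facts (w := w) hk
  omega

/-- indicator function -/
def ind (s : Finset ℕ) (x : ℕ) : ℝ := if x ∈ s then 1 else 0

theorem sum_ind {n i j : ℕ} (α β : Finset ℕ) :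
    ∑ p ∈ P k n, ind α (p.1 + i * p.2) * ind β (p.1 + j * p.2) = (N k n i j α β : ℝ) := by
  unfold N ind
  rw [card_filter]
  push_cast
  refine sum_congr rfl fun p _ => ?_
  by_cases h1 : p.1 + i * p.2 ∈ α <;> by_cases h2 : p.1 + j * p.2 ∈ β <;> simp [h1, h2]

/-- the perturbation -/
noncomputable def g (k w : ℕ) (x : ℕ) : ℝ :=
  -ind (I w) x + (2 * k ^ 2) * ind (J k w) x - (2 * k ^ 2) * ind (J' k w) x

theorem abs_g_le (hk : 3 ≤ k) (x : ℕ) : |g k w x| ≤ 2 * (k : ℝ) ^ 2 := by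
  have hk' : (3 : ℝ) ≤ k := by exact_mod_cast hk
  have hb : (1 : ℝ) ≤ 2 * (k : ℝ) ^ 2 := by nlinarith
  obtain ⟨f1, f2⟩ := kw_facts (w := w) hk
  have e4 : 4 * k * w = 4 * (k * w) := by ring
  unfold g ind
  by_cases h1 : x ∈ I w
  · have h2 : x ∉ J k w := by
      simp only [I, J, mem_Ioc] at *; omega
    have h3 : x ∉ J' k w := by
      simp only [I, J', mem_Ioc] at *; omega
    simp only [h1, h2, h3, if_true, if_false]
    rw [abs_le]; constructor <;> linarith
  · by_cases h2 : x ∈ J k w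
    · have h3 : x ∉ J' k w := by
        simp only [J, J', mem_Ioc] at *; omega
      simp only [h1, h2, h3, if_true, if_false]
      rw [abs_le]; constructor <;> linarith
    · by_cases h3 : x ∈ J' k w
      · simp only [h1, h2, h3, if_true, if_false]
        rw [abs_le]; constructor <;> linarith
      · simp only [h1, h2, h3, if_false]
        rw [abs_le]; constructor <;> linarith

theorem F_le {i m : ℕ} (hk : 3 ≤ k) (hm : 0 < m) (him : i + m < k) (hmw : m ∣ w) :
    ∑ p ∈ P k ((k - 1) * (4 * k * w)), g k w (p.1 + i * p.2) * g k w (p.1 + (i + m) * p.2) ≤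
      (w : ℝ) ^ 2 - (if i = 0 ∧ m = 1 then (2 * (k : ℝ) ^ 2) * (w : ℝ) ^ 2 else 0) := by
  set n := (k - 1) * (4 * k * w) with hn
  set b : ℝ := 2 * (k : ℝ) ^ 2 with hb
  have hb0 : 0 ≤ b := by positivity
  have h1 : ∑ p ∈ P k n, g k w (p.1 + i * p.2) * g k w (p.1 + (i + m) * p.2) =
      (N k n i (i + m) (I w) (I w) : ℝ) - b * N k n i (i + m) (I w) (J k w)
      + b * N k n i (i + m) (I w) (J' k w) - b * N k n i (i + m) (J k w) (I w)
      + b * b * N k n i (i + m) (J k w) (J k w) - b * b * N k n i (i + m) (J k w) (J' k w)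
      + b * N k n i (i + m) (J' k w) (I w) - b * b * N k n i (i + m) (J' k w) (J k w)
      + b * b * N k n i (i + m) (J' k w) (J' k w) := by
    simp_rw [← sum_ind]
    simp only [mul_sum, ← sum_add_distrib, ← sum_sub_distrib]
    refine sum_congr rfl fun p _ => ?_
    unfold g
    ring
  rw [h1]
  have a1 : (N k n i (i + m) (I w) (I w) : ℝ) ≤ (w : ℝ) ^ 2 := by
    rw [sq]; exact_mod_cast N_II (by omega)
  have a2 : (N k n i (i + m) (J k w) (J k w) : ℝ) + N k n i (i + m) (J' k w) (J' k w) ≤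
      N k n i (i + m) (J k w) (J' k w) := by
    exact_mod_cast key_JJ hk hm him hmw
  have a3 : (N k n i (i + m) (I w) (J' k w) : ℝ) + (if i = 0 ∧ m = 1 then (w : ℝ) ^ 2 else 0) ≤
      N k n i (i + m) (I w) (J k w) := by
    have := key_IJ hk hm him hmw
    split_ifs at this ⊢ with hc
    · rw [sq]; exact_mod_cast this
    · exact_mod_cast this
  have a4 : (N k n i (i + m) (J' k w) (I w) : ℝ) = 0 := by
    exact_mod_cast key_J'I hk
  have a5 : 0 ≤ (N k n i (i + m) (J k w) (I w) : ℝ) := Nat.cast_nonneg _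
  have a6 : 0 ≤ (N k n i (i + m) (J' k w) (J k w) : ℝ) := Nat.cast_nonneg _
  have b2 := mul_le_mul_of_nonneg_left a2 (mul_nonneg hb0 hb0)
  have b3 := mul_le_mul_of_nonneg_left a3 hb0
  have b5 := mul_nonneg hb0 a5
  have b6 := mul_nonneg (mul_nonneg hb0 hb0) a6
  rw [a4]
  split_ifs at b3 ⊢ with hc
  · linarith
  · linarith

theorem e2_le (hk : 3 ≤ k) (hw : ∀ m, 0 < m → m < k → m ∣ w) :
    ∑ p ∈ P k ((k - 1) * (4 * k * w)), ∑ j ∈ range k, ∑ i ∈ range j,
      g k w (p.1 + i * p.2) * g k w (p.1 + j * p.2) ≤ -((k : ℝ) ^ 2 * (w : ℝ) ^ 2) := by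
  rw [sum_comm]
  have h0 : ∀ j ∈ range k, ∑ p ∈ P k ((k - 1) * (4 * k * w)), ∑ i ∈ range j,
      g k w (p.1 + i * p.2) * g k w (p.1 + j * p.2) ≤
      (k : ℝ) * (w : ℝ) ^ 2 - (if j = 1 then (2 * (k : ℝ) ^ 2) * (w : ℝ) ^ 2 else 0) := by
    intro j hj
    rw [mem_range] at hj
    rw [sum_comm]
    have h1 : ∀ i ∈ range j, ∑ p ∈ P k ((k - 1) * (4 * k * w)),
        g k w (p.1 + i * p.2) * g k w (p.1 + j * p.2) ≤
        (w : ℝ) ^ 2 - (if j = 1 then (2 * (k : ℝ) ^ 2) * (w : ℝ) ^ 2 else 0) := by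
      intro i hi
      rw [mem_range] at hi
      obtain ⟨m, rfl⟩ : ∃ m, j = i + m := ⟨j - i, by omega⟩
      refine (F_le hk (by omega) hj (hw m (by omega) (by omega))).trans (le_of_eq ?_)
      congr 1
      by_cases hc : i = 0 ∧ m = 1
      · rw [if_pos hc, if_pos (by omega)]
      · rw [if_neg hc, if_neg (by omega)]
    refine (sum_le_sum h1).trans ?_
    rw [sum_const, card_range, nsmul_eq_mul]
    have hw2 : (0 : ℝ) ≤ (w : ℝ) ^ 2 := by positivity
    split_ifs with hc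
    · subst hc
      have : (1 : ℝ) ≤ k := by exact_mod_cast (by omega : 1 ≤ k)
      push_cast
      nlinarith
    · have : (j : ℝ) ≤ k := by exact_mod_cast hj.le
      nlinarith
  refine (sum_le_sum h0).trans ?_
  rw [sum_sub_distrib, sum_const, card_range, nsmul_eq_mul, sum_ite_eq' (range k) 1,
    if_pos (mem_range.mpr (by omega))]
  nlinarith

/-- signs of the perturbation in the colours -/
def sg {r : ℕ} (c : Fin r) : ℝ := if c.val = 0 then 1 else if c.val = 1 then -1 else 0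

theorem sum_sg {r : ℕ} (hr : 2 ≤ r) : ∑ c : Fin r, sg c = 0 := by
  obtain ⟨r', rfl⟩ : ∃ r', r = r' + 2 := ⟨r - 2, by omega⟩
  rw [Fin.sum_univ_succ, Fin.sum_univ_succ]
  simp [sg]

theorem sum_sg_sq {r : ℕ} (hr : 2 ≤ r) : ∑ c : Fin r, sg c ^ 2 = 2 := by
  obtain ⟨r', rfl⟩ : ∃ r', r = r' + 2 := ⟨r - 2, by omega⟩
  rw [Fin.sum_univ_succ, Fin.sum_univ_succ]
  simp [sg]
  norm_num

theorem abs_sg {r : ℕ} (c : Fin r) : |sg c| ≤ 1 := by
  unfold sg
  split_ifs <;> simp

theorem sum_APs {r n : ℕ} (hk : 2 ≤ k) (q : ℕ → Fin r → ℝ) :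
    ∑ s ∈ APs k n, ∑ c, ∏ x ∈ s, q x c =
      ∑ p ∈ P k n, ∑ c, ∏ i ∈ range k, q (p.1 + i * p.2) c := by
  rw [APs_eq hk, sum_image (ap_inj hk)]
  refine sum_congr rfl fun p hp => sum_congr rfl fun c _ => ?_
  rw [mem_P hk] at hp
  unfold ap
  rw [prod_image]
  intro i _ j _ h
  simp only at h
  exact Nat.eq_of_mul_eq_mul_right hp.2.1 (by omega)

/-- Along a progression of lengths the random rate is beaten by a constant factor. -/
theorem main_bound {r : ℕ} (hk : 3 ≤ k) (hr : 2 ≤ r) : ∃ η : ℝ, 0 < η ∧ ∀ h : ℕ,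
    ∃ χ : ℕ → Fin r, (monoCount k ((k - 1) * (4 * k * ((k - 1).factorial * h))) χ : ℝ) ≤
      (1 / (2 * (k - 1) * r ^ (k - 1)) - η) *
        (((k - 1) * (4 * k * ((k - 1).factorial * h)) : ℕ) : ℝ) ^ 2 := by
  classical
  obtain ⟨D, hD0, hD⟩ := expand (2 * (k : ℝ) ^ 2) (by positivity) k
  have hk' : (3 : ℝ) ≤ k := by exact_mod_cast hk
  have hr' : (2 : ℝ) ≤ r := by exact_mod_cast hr
  have hr0 : (0 : ℝ) < r := by linarith
  set u : ℝ := 1 / (16 * r * k ^ 2 * (D + 1)) with hu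
  have hden : (0 : ℝ) < 16 * r * k ^ 2 * (D + 1) := by positivity
  have hu0 : 0 < u := by positivity
  have hden1 : (16 : ℝ) * 2 * k ^ 2 * 1 ≤ 16 * r * k ^ 2 * (D + 1) := by
    have : (0 : ℝ) ≤ k ^ 2 := by positivity
    have h1 : (16 : ℝ) * 2 * k ^ 2 ≤ 16 * r * k ^ 2 := by nlinarith
    have h2 : (0 : ℝ) ≤ 16 * r * k ^ 2 := by positivity
    nlinarith
  have hub : u * (2 * (k : ℝ) ^ 2) ≤ 1 := by
    rw [hu, one_div, inv_mul_le_iff₀ hden]
    nlinarith
  have hu1 : u ≤ 1 := by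
    have : (1 : ℝ) ≤ 2 * (k : ℝ) ^ 2 := by nlinarith
    nlinarith
  have huD : r * D * u * (16 * (k - 1) ^ 2) ≤ 1 := by
    rw [hu]
    rw [show r * D * (1 / (16 * r * (k : ℝ) ^ 2 * (D + 1))) * (16 * (k - 1) ^ 2) =
      (r * D * (16 * ((k : ℝ) - 1) ^ 2)) / (16 * r * k ^ 2 * (D + 1)) by ring]
    rw [div_le_one hden]
    have h1 : ((k : ℝ) - 1) ^ 2 ≤ (k : ℝ) ^ 2 := by nlinarith
    have h2 : (r : ℝ) * D * (16 * ((k : ℝ) - 1) ^ 2) ≤ r * D * (16 * (k : ℝ) ^ 2) :=
      mul_le_mul_of_nonneg_left (by linarith) (by positivity)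
    have h3 : (0 : ℝ) ≤ r * (16 * (k : ℝ) ^ 2) := by positivity
    nlinarith
  refine ⟨u ^ 2 / (16 * (k - 1) ^ 2 * r ^ k), ?_, ?_⟩
  · have : (0 : ℝ) < k - 1 := by linarith
    positivity
  intro h
  set w := (k - 1).factorial * h with hw
  set n := (k - 1) * (4 * k * w) with hn
  have hwd : ∀ m, 0 < m → m < k → m ∣ w := by
    intro m hm hmk
    exact Dvd.dvd.mul_right (Nat.dvd_factorial hm (by omega)) _
  set q : ℕ → Fin r → ℝ := fun x c => (1 + u * (sg c * g k w x)) / r with hq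
  have hg : ∀ x, |g k w x| ≤ 2 * (k : ℝ) ^ 2 := fun x => abs_g_le hk x
  have hsg : ∀ (c : Fin r) x, |sg c * g k w x| ≤ 2 * (k : ℝ) ^ 2 := by
    intro c x
    rw [abs_mul]
    calc |sg c| * |g k w x| ≤ 1 * (2 * (k : ℝ) ^ 2) :=
          mul_le_mul (abs_sg c) (hg x) (abs_nonneg _) (by norm_num)
      _ = _ := one_mul _
  have hq0 : ∀ x c, 0 ≤ q x c := by
    intro x c
    refine div_nonneg ?_ hr0.le
    have h1 := (abs_le.mp (hsg c x)).1
    have h2 : u * (-(2 * (k : ℝ) ^ 2)) ≤ u * (sg c * g k w x) :=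
      mul_le_mul_of_nonneg_left h1 hu0.le
    linarith
  have hq1 : ∀ x, ∑ c, q x c = 1 := by
    intro x
    simp only [hq]
    rw [← sum_div, sum_add_distrib, ← mul_sum, ← sum_mul, sum_sg hr]
    simp
    omega
  obtain ⟨χ, hχ⟩ := exists_coloring (by omega) (APs k n) q hq0 hq1
  refine ⟨χ, ?_⟩
  have h1 : (monoCount k n χ : ℝ) ≤ ∑ s ∈ APs k n, ∑ c, ∏ x ∈ s, q x c := by
    unfold monoCount
    apply hχ
    intro s hs
    rw [mem_filter] at hs
    exact hs
  rw [sum_APs (by omega)] at h1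
  have h2 : ∀ p ∈ P k n, ∑ c, ∏ i ∈ range k, q (p.1 + i * p.2) c ≤
      (1 / (r : ℝ) ^ k) * (r + 2 * u ^ 2 * (∑ j ∈ range k, ∑ i ∈ range j,
        g k w (p.1 + i * p.2) * g k w (p.1 + j * p.2)) + r * (D * u ^ 3)) := by
    intro p _
    have h3 : ∀ c : Fin r, ∏ i ∈ range k, q (p.1 + i * p.2) c ≤ (1 / (r : ℝ) ^ k) *
        (1 + u * (sg c * ∑ i ∈ range k, g k w (p.1 + i * p.2)) +
          u ^ 2 * (sg c ^ 2 * ∑ j ∈ range k, ∑ i ∈ range j,
            g k w (p.1 + i * p.2) * g k w (p.1 + j * p.2)) + D * u ^ 3) := by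
      intro c
      have h4 := hD (fun i => sg c * g k w (p.1 + i * p.2)) (fun i => hsg c _) u hu0.le hu1
      have h5 : ∏ i ∈ range k, q (p.1 + i * p.2) c =
          (1 / (r : ℝ) ^ k) * ∏ i ∈ range k, (1 + u * (sg c * g k w (p.1 + i * p.2))) := by
        simp only [hq]
        rw [prod_div_distrib, prod_const, card_range]
        ring
      rw [h5]
      refine mul_le_mul_of_nonneg_left ?_ (by positivity)
      have h6 := (abs_le.mp h4).2
      rw [← mul_sum] at h6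
      have h7 : ∑ j ∈ range k, ∑ i ∈ range j,
          (sg c * g k w (p.1 + i * p.2)) * (sg c * g k w (p.1 + j * p.2)) =
          sg c ^ 2 * ∑ j ∈ range k, ∑ i ∈ range j,
            g k w (p.1 + i * p.2) * g k w (p.1 + j * p.2) := by
        rw [mul_sum]
        refine sum_congr rfl fun j _ => ?_
        rw [mul_sum]
        refine sum_congr rfl fun i _ => ?_
        ring
      rw [h7] at h6
      linarith
    refine (sum_le_sum fun c _ => h3 c).trans (le_of_eq ?_)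
    rw [← mul_sum]
    congr 1
    rw [sum_add_distrib, sum_add_distrib, sum_add_distrib, ← mul_sum, ← mul_sum, ← sum_mul,
      ← sum_mul, sum_sg hr, sum_sg_sq hr]
    simp
    ring
  have h3 := h1.trans (sum_le_sum h2)
  rw [← mul_sum, sum_add_distrib, sum_add_distrib, ← mul_sum, sum_const, sum_const,
    nsmul_eq_mul, nsmul_eq_mul] at h3
  have h4 := e2_le hk hwd
  rw [← hn] at h4
  have h5 := card_P_le (k := k) (n := n) (by omega)
  have hk1 : (0 : ℝ) < k - 1 := by linarith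
  have hnw : (n : ℝ) = 4 * k * (k - 1) * w := by
    rw [hn, Nat.cast_mul, Nat.cast_sub (by omega)]
    push_cast; ring
  have hc2 : ((P k n).card : ℝ) ≤ (n : ℝ) ^ 2 := by
    refine h5.trans ?_
    rw [div_le_iff₀ (by positivity)]
    nlinarith [sq_nonneg (n : ℝ)]
  have hw2 : (n : ℝ) ^ 2 = 16 * k ^ 2 * (k - 1) ^ 2 * w ^ 2 := by rw [hnw]; ring
  -- the third order term
  have h6 : (r : ℝ) * (D * u ^ 3) * (P k n).card ≤ u ^ 2 * (k ^ 2 * w ^ 2) := by
    calc (r : ℝ) * (D * u ^ 3) * (P k n).card ≤ (r : ℝ) * (D * u ^ 3) * (n : ℝ) ^ 2 :=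
          mul_le_mul_of_nonneg_left hc2 (by positivity)
      _ = (r * D * u * (16 * (k - 1) ^ 2)) * (u ^ 2 * (k ^ 2 * w ^ 2)) := by rw [hw2]; ring
      _ ≤ 1 * (u ^ 2 * (k ^ 2 * w ^ 2)) := mul_le_mul_of_nonneg_right huD (by positivity)
      _ = _ := one_mul _
  have h7 : (1 / (r : ℝ) ^ k) * ((P k n).card * r + 2 * u ^ 2 * (∑ p ∈ P k n, ∑ j ∈ range k,
      ∑ i ∈ range j, g k w (p.1 + i * p.2) * g k w (p.1 + j * p.2)) +
      (P k n).card * (r * (D * u ^ 3))) ≤
      (1 / (r : ℝ) ^ k) * ((n : ℝ) ^ 2 / (2 * (k - 1)) * r - u ^ 2 * (k ^ 2 * w ^ 2)) := by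
    refine mul_le_mul_of_nonneg_left ?_ (by positivity)
    have h8 : 2 * u ^ 2 * (∑ p ∈ P k n, ∑ j ∈ range k,
      ∑ i ∈ range j, g k w (p.1 + i * p.2) * g k w (p.1 + j * p.2)) ≤
      2 * u ^ 2 * (-((k : ℝ) ^ 2 * (w : ℝ) ^ 2)) := mul_le_mul_of_nonneg_left h4 (by positivity)
    have h9 : ((P k n).card : ℝ) * r ≤ (n : ℝ) ^ 2 / (2 * (k - 1)) * r :=
      mul_le_mul_of_nonneg_right h5 hr0.le
    linarith
  refine (h3.trans h7).trans (le_of_eq ?_)
  obtain ⟨k', rfl⟩ : ∃ k', k = k' + 1 := ⟨k - 1, by omega⟩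
  have hrp : (r : ℝ) ^ (k' + 1) = r ^ k' * r := pow_succ _ _
  rw [Nat.add_sub_cancel]
  have hk2 : ((k' + 1 : ℕ) : ℝ) - 1 = k' := by push_cast; ring
  rw [hk2] at hk1 hw2 ⊢
  have hkk : ((k' + 1 : ℕ) : ℝ) ≠ 0 := by positivity
  have hw3 : (w : ℝ) ^ 2 = (n : ℝ) ^ 2 / (16 * ((k' + 1 : ℕ) : ℝ) ^ 2 * k' ^ 2) := by
    rw [hw2]
    field_simp
  rw [hw3, hrp]
  field_simp

/-! ### From special lengths to all lengths, and the exact error term -/

theorem monoCount_mono {r n n' : ℕ} (hk : 2 ≤ k) (χ : ℕ → Fin r) :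
    monoCount k n χ ≤ monoCount k n' χ + (n - n') * n := by
  classical
  rw [monoCount_eq hk, monoCount_eq hk]
  have h1 : (P k n).filter (mono k χ) ⊆ (P k n').filter (mono k χ) ∪
      (P k n).filter (fun p => n' < p.1 + (k - 1) * p.2) := by
    intro p hp
    rw [mem_filter, mem_P hk] at hp
    rw [mem_union, mem_filter, mem_filter, mem_P hk, mem_P hk]
    by_cases h : n' < p.1 + (k - 1) * p.2
    · exact Or.inr ⟨hp.1, h⟩
    · exact Or.inl ⟨⟨hp.1.1, hp.1.2.1, by omega⟩, hp.2⟩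
  have h2 : ((P k n).filter (fun p => n' < p.1 + (k - 1) * p.2)).card ≤ (n - n') * n := by
    have h3 : ((P k n).filter (fun p => n' < p.1 + (k - 1) * p.2)).card ≤
        ((Ioc n' n) ×ˢ (Ioc 0 n)).card := by
      refine card_le_card_of_injOn (fun p => (p.1 + (k - 1) * p.2, p.2)) ?_ ?_
      · intro p hp
        rw [mem_coe, mem_filter, mem_P hk] at hp
        rw [mem_coe, mem_product, mem_Ioc, mem_Ioc]
        have : p.2 ≤ (k - 1) * p.2 := Nat.le_mul_of_pos_left _ (by omega)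
        simp only
        omega
      · intro p _ q _ h
        simp only [Prod.mk.injEq] at h
        obtain ⟨h1, h2⟩ := h
        rw [h2] at h1
        exact Prod.ext (by omega) h2
    simpa using h3
  calc ((P k n).filter (mono k χ)).card ≤ _ := card_le_card h1
    _ ≤ _ := card_union_le _ _
    _ ≤ _ := Nat.add_le_add_left h2 _

theorem monoCount_change {r n y : ℕ} (hk : 2 ≤ k) (χ χ' : ℕ → Fin r)
    (h : ∀ x, x ≠ y → χ' x = χ x) : monoCount k n χ' ≤ monoCount k n χ + k * n := by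
  classical
  rw [monoCount_eq hk, monoCount_eq hk]
  have h1 : (P k n).filter (mono k χ') ⊆ (P k n).filter (mono k χ) ∪
      (P k n).filter (fun p => ∃ i < k, p.1 + i * p.2 = y) := by
    intro p hp
    rw [mem_filter] at hp
    rw [mem_union, mem_filter, mem_filter]
    by_cases hy : ∃ i < k, p.1 + i * p.2 = y
    · exact Or.inr ⟨hp.1, hy⟩
    · left
      refine ⟨hp.1, fun i hi => ?_⟩
      have h0 : p.1 ≠ y := fun h => hy ⟨0, by omega, by simpa using h⟩
      rw [← h _ (fun h => hy ⟨i, hi, h⟩), ← h _ h0]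
      exact hp.2 i hi
  have h2 : ((P k n).filter (fun p => ∃ i < k, p.1 + i * p.2 = y)).card ≤ k * n := by
    have h3 : (P k n).filter (fun p => ∃ i < k, p.1 + i * p.2 = y) ⊆
        ((range k) ×ˢ (Ioc 0 n)).image (fun q => (y - q.1 * q.2, q.2)) := by
      intro p hp
      rw [mem_filter, mem_P hk] at hp
      obtain ⟨⟨g1, g2, g3⟩, i, hi, hiy⟩ := hp
      rw [mem_image]
      have : p.2 ≤ (k - 1) * p.2 := Nat.le_mul_of_pos_left _ (by omega)
      refine ⟨(i, p.2), ?_, ?_⟩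
      · rw [mem_product, mem_range, mem_Ioc]
        simp only
        omega
      · refine Prod.ext ?_ rfl
        simp only
        omega
    refine (card_le_card h3).trans (card_image_le.trans (le_of_eq ?_))
    simp
  calc ((P k n).filter (mono k χ')).card ≤ _ := card_le_card h1
    _ ≤ _ := card_union_le _ _
    _ ≤ _ := Nat.add_le_add_left h2 _

theorem monoCount_const {r n : ℕ} (hk : 2 ≤ k) (χ : ℕ → Fin r) (c : Fin r)
    (h : ∀ x, 1 ≤ x → x ≤ n → χ x = c) : monoCount k n χ = (P k n).card := by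
  classical
  rw [monoCount_eq hk]
  congr 1
  rw [filter_eq_self]
  intro p hp i hi
  rw [mem_P hk] at hp
  have h1 : i * p.2 ≤ (k - 1) * p.2 := Nat.mul_le_mul_right _ (by omega)
  rw [h _ (by omega) (by omega), h _ (by omega) (by omega)]

/-- **Beating random colourings.** For every `k ≥ 3` and every `r ≥ 2` there are a constant `δ`
strictly below the random rate `1 / (2 (k - 1) r ^ (k - 1))` and, for every `n`, an `r`-colouring
`χ` of `{1, …, n}` whose number of monochromatic `k`-term progressions is `δ n² + O(n)`, with an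
implied constant `C` that does not depend on `n`. -/
theorem result (k r : ℕ) (hk : 3 ≤ k) (hr : 2 ≤ r) :
    ∃ δ : ℝ, δ < 1 / (2 * ((k : ℝ) - 1) * (r : ℝ) ^ (k - 1)) ∧ ∃ C : ℝ, ∀ n : ℕ,
      ∃ χ : ℕ → Fin r, |(monoCount k n χ : ℝ) - δ * (n : ℝ) ^ 2| ≤ C * n := by
  classical
  obtain ⟨η, hη, hmain⟩ := main_bound (r := r) hk hr
  have hk' : (3 : ℝ) ≤ k := by exact_mod_cast hk
  have hr' : (2 : ℝ) ≤ r := by exact_mod_cast hr
  have hk1 : (0 : ℝ) < k - 1 := by linarith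
  have hrate : (0 : ℝ) < 1 / (2 * ((k : ℝ) - 1) * (r : ℝ) ^ (k - 1)) := by positivity
  set rate : ℝ := 1 / (2 * ((k : ℝ) - 1) * (r : ℝ) ^ (k - 1)) with hrate_def
  set δ : ℝ := max (rate - η) 0 with hδ
  have hδ0 : 0 ≤ δ := le_max_right _ _
  have hδ1 : δ < rate := max_lt (by linarith) hrate
  have hrate2 : rate ≤ 1 / (2 * ((k : ℝ) - 1)) := by
    rw [hrate_def]
    refine one_div_le_one_div_of_le (by positivity) ?_
    have : (1 : ℝ) ≤ (r : ℝ) ^ (k - 1) := one_le_pow₀ (by linarith)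
    nlinarith
  set L : ℕ := (k - 1) * (4 * k * (k - 1).factorial) with hL
  have hL0 : 0 < L := by
    have := Nat.factorial_pos (k - 1)
    rw [hL]
    refine Nat.mul_pos (by omega) (Nat.mul_pos (by omega) this)
  refine ⟨δ, hδ1, (L : ℝ) + k + 1, fun n => ?_⟩
  -- a colouring below the target
  obtain ⟨χ, hχ⟩ : ∃ χ : ℕ → Fin r, (monoCount k n χ : ℝ) ≤ δ * (n : ℝ) ^ 2 + L * n := by
    obtain ⟨χ, hχ⟩ := hmain (n / L)
    refine ⟨χ, ?_⟩
    have e1 : (k - 1) * (4 * k * ((k - 1).factorial * (n / L))) = L * (n / L) := by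
      rw [hL]; ring
    rw [e1] at hχ
    set n' := L * (n / L) with hn'
    have hle : n' ≤ n := Nat.mul_div_le n L
    have hlt : n - n' ≤ L := by
      have := Nat.mod_lt n hL0
      have := Nat.mod_add_div n L
      omega
    have h1 := monoCount_mono (k := k) (n := n) (n' := n') (by omega) χ
    have h2 : (monoCount k n χ : ℝ) ≤ monoCount k n' χ + ((n - n') * n : ℕ) := by
      exact_mod_cast h1
    have h3 : (((n - n') * n : ℕ) : ℝ) ≤ L * n := by
      exact_mod_cast Nat.mul_le_mul_right n hlt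
    have h4 : (rate - η) * (n' : ℝ) ^ 2 ≤ δ * (n : ℝ) ^ 2 := by
      have h5 : (n' : ℝ) ^ 2 ≤ (n : ℝ) ^ 2 := by
        have : (n' : ℝ) ≤ n := by exact_mod_cast hle
        exact pow_le_pow_left₀ (Nat.cast_nonneg _) this 2
      calc (rate - η) * (n' : ℝ) ^ 2 ≤ δ * (n' : ℝ) ^ 2 :=
            mul_le_mul_of_nonneg_right (le_max_left _ _) (by positivity)
        _ ≤ _ := mul_le_mul_of_nonneg_left h5 hδ0
    linarith
  -- recolour the integers `1, …, t` one after the other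
  set c0 : Fin r := ⟨0, by omega⟩ with hc0
  set f : ℕ → (ℕ → Fin r) := fun t x => if x ≤ t then c0 else χ x with hf
  have hn0 : (0 : ℝ) ≤ n := Nat.cast_nonneg n
  have hL' : (0 : ℝ) ≤ L := Nat.cast_nonneg L
  have hk0 : (0 : ℝ) ≤ k := Nat.cast_nonneg k
  have hstep : ∀ t, (monoCount k n (f (t + 1)) : ℝ) ≤ monoCount k n (f t) + k * n := by
    intro t
    have := monoCount_change (k := k) (n := n) (y := t + 1) (by omega) (f t) (f (t + 1)) ?_
    · exact_mod_cast this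
    · intro x hx
      simp only [hf]
      by_cases h : x ≤ t
      · rw [if_pos h, if_pos (by omega)]
      · rw [if_neg h, if_neg (by omega)]
  have h0 : (monoCount k n (f 0) : ℝ) ≤ δ * (n : ℝ) ^ 2 + L * n := by
    have : monoCount k n (f 0) = monoCount k n χ := by
      rw [monoCount_eq (by omega), monoCount_eq (by omega)]
      congr 1
      refine filter_congr fun p hp => ?_
      rw [mem_P (by omega)] at hp
      have h1 : ∀ i, f 0 (p.1 + i * p.2) = χ (p.1 + i * p.2) := by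
        intro i
        simp only [hf]
        rw [if_neg (by omega)]
      have h2 : f 0 p.1 = χ p.1 := by
        simp only [hf]
        rw [if_neg (by omega)]
      unfold mono
      simp only [h1, h2]
    rw [this]; exact hχ
  have hlast : δ * (n : ℝ) ^ 2 - n ≤ (monoCount k n (f n) : ℝ) := by
    rw [monoCount_const (by omega) (f n) c0 (fun x _ hx => by simp only [hf]; rw [if_pos hx])]
    have h1 := le_card_P (k := k) (n := n) (by omega)
    have h2 : δ * (n : ℝ) ^ 2 ≤ (n : ℝ) ^ 2 / (2 * (k - 1)) := by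
      calc δ * (n : ℝ) ^ 2 ≤ (1 / (2 * ((k : ℝ) - 1))) * (n : ℝ) ^ 2 :=
            mul_le_mul_of_nonneg_right (hδ1.le.trans hrate2) (by positivity)
        _ = _ := by ring
    linarith
  by_cases hall : ∀ t ≤ n, (monoCount k n (f t) : ℝ) ≤ δ * (n : ℝ) ^ 2 + L * n
  · refine ⟨f n, ?_⟩
    have h1 := hall n le_rfl
    rw [abs_le]
    constructor
    · nlinarith
    · nlinarith
  · push Not at hall
    have hex : ∃ t, δ * (n : ℝ) ^ 2 + L * n < (monoCount k n (f t) : ℝ) := by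
      obtain ⟨t, _, ht⟩ := hall
      exact ⟨t, ht⟩
    obtain ⟨t, ht, hmin⟩ : ∃ t, δ * (n : ℝ) ^ 2 + L * n < (monoCount k n (f t) : ℝ) ∧
        ∀ s < t, ¬ (δ * (n : ℝ) ^ 2 + L * n < (monoCount k n (f s) : ℝ)) :=
      ⟨Nat.find hex, Nat.find_spec hex, fun s hs => Nat.find_min hex hs⟩
    have ht0 : t ≠ 0 := by
      rintro rfl
      linarith
    obtain ⟨s, rfl⟩ : ∃ s, t = s + 1 := ⟨t - 1, by omega⟩
    have h1 := hmin s (by omega)
    push Not at h1
    have h2 := hstep s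
    refine ⟨f (s + 1), ?_⟩
    rw [abs_le]
    constructor
    · nlinarith
    · nlinarith

end Pool.Agent.Results.MP_6bff71_co.BeatsRandom
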